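import Mathlib
import Pool.Agent.N166.CZ.Main

/-!
# The Tate conjecture over number fields for products with almost all abelian varieties

Let `g i` (`i` in a finite set `I`) be positive integers, `r` an integer smaller than all the `g i`
and `E` a number field.  For a prime power `q` let `S i` be the set of the characteristic
polynomials of Frobenius of the ordinary abelian varieties of dimension `g i` over the field with `q`
elements, or of all abelian varieties of dimension `g i`, or any set in between.  By Weil, Honda and
Tate its elements correspond to the isogeny classes, the first set contains `ordinaryWeilPolys q
(g i)`, and the second one is contained in `weilPolys q (g i)`.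

For all families `f i` in `S i` with the exception of a proportion `O (q ^ (-1 / 6) log q)`, the
constant depending only on `g`, `r` and `E`, the following holds. Let `A` be an abelian variety over
a number field `K` which has good reduction at ONE place `v` with residue field of `q` elements,
such that the reduction is isogenous to a product of abelian varieties with characteristic
polynomials `f i`. Let `Z` be **any** smooth projective variety over `K` with good reduction at `v`
such that the eigenvalues of the Frobenius element at `v` on the cohomology of `Z`, and their
conjugates, generate a group of rank at most `r` modulo the group of the numbers with a power in `E`.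
**Then the Tate conjecture for all the varieties `A ^ n × Z` is equivalent to the Tate conjecture
for `Z`** (for all primes `ℓ` not divisible by `v`): all the Tate classes on `A ^ n × Z` are linear
combinations of the products of intersections of divisors on `A ^ n` with Tate classes on `Z`.

In the Lean statement `V` is the rational Tate module with the action `ρ` of the Galois group, `χ`
is the cyclotomic character, `γ` is an arithmetic Frobenius element at `v`, and `σ` is the action of
the Galois group on `M = H^b(Z)`. By the theorem of Kunneth the cohomology of `A^n × Z` is the sum
of the spaces `H^a(A^n) ⊗ M` of alternating maps from `V ^ n` to `M` in `a` variables. That the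
Tate classes of degree two on `A ^ n` are classes of divisors is the theorem of Faltings.

The idea of the proof: by a sieve (helper521, helper484) almost all families are such that each
pair `α`, `q / α` of roots can be exchanged by a Galois automorphism which fixes all the other roots
and the elements of `E`, and it follows that no product of roots not containing such a pair is a
number of rank `r` over `E`, up to powers. So a vector-valued Tate form is balanced with respect
to an eigenbasis of `V` for `γ`. Therefore the Lie algebra of the endomorphisms of `V` which kill all
the vector-valued Tate forms (with the trivial action on the values) contains a Cartan subalgebra of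
the symplectic Lie algebra; by the semisimplicity of `V` it contains, over a finite extension, a
product of symplectic and general linear Lie algebras, and the first fundamental theorem for these
(helper204) gives the result.
-/

set_option autoImplicit false

namespace Pool.Agent.Results.MP_90d181_ag.AlmostAllTimesVarieties

open Polynomial Pool.Agent.W521.Descent Pool.Agent.W521.Count Pool.Agent.W484.TB
  Pool.Agent.N166.CZ

/-- `weilPolys q g` is the set of monic integral polynomials of degree `2 g` with constant term
`q ^ g` and all roots of absolute value `√q`; `ordinaryWeilPolys q g` is the subset of those
whose coefficient of index `g` is prime to `q`. -/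
theorem result {I : Type} [Fintype I] (g : I → ℕ) (r : ℕ) (hr : ∀ i, r < g i)
    (E : IntermediateField ℚ ℂ) [FiniteDimensional ℚ E] :
    ∃ C : ℝ, ∀ q : ℕ, IsPrimePow q → ∀ S : I → Set ℤ[X],
      (∀ i, ordinaryWeilPolys q (g i) ⊆ S i ∧ S i ⊆ weilPolys q (g i)) →
      (∀ i, (S i).Finite ∧ (S i).Nonempty) ∧
      ({f : I → ℤ[X] | (∀ i, f i ∈ S i) ∧ ¬ TateProducts E q r f}.ncard : ℝ) ≤
        C * (Real.log q * (q : ℝ) ^ (-(1 / 6) : ℝ)) * ∏ i, ((S i).ncard : ℝ) :=
  count_of_goodU (splitPrimes E) (dense_splitPrimes E) g
    (fun i => (Nat.zero_le r).trans_lt (hr i)) (fun q f => TateProducts E q r f)
    fun _ hq x hx => tateProducts_of_good g E hq.pos.ne' r hr x hx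

end Pool.Agent.Results.MP_90d181_ag.AlmostAllTimesVarieties
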