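import Mathlib
import Pool.Agent.N171.StW

/-!
# The Tate conjecture for the products of powers of a hyperelliptic Jacobian with any abelian variety

`K` is any field of characteristic different from two (it need not be finitely generated) and `F` an
algebraic closure of `K`.  Let `J` be the Jacobian of the hyperelliptic curve `y ^ 2 = ∏ i, (x - α i)`,
where the `α i` are an odd number of distinct elements of `K`; the group `J (F)` is the class group of the
coordinate ring `F[x, y]` of the affine curve (the curve has one point at infinity), with the action of
the Galois group on the coefficients, and `V` is its rational 2-adic Tate module.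

The hypothesis on the curve (`SignData`) is an explicit condition on the classes of the differences
`α i - α j` modulo squares.  There are homomorphisms `l k : Kˣ → {1, -1}` (quadratic characters,
valuations modulo two, ...) and sets `I k` of indices, of even cardinality, such that
`l k (α i - α j) = -1` exactly if `i` and `j` are in `I k`; the sets `I k` generate the group of the sets
of even cardinality, and they are connected by intersections of odd cardinality.

`W` is any finite dimensional 2-adic representation of the Galois group, for instance
`W = H ^ i (Z, ℚ_2) (c)` for any smooth projective variety `Z` over `K`.  It is related to the curve only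
by a condition on the field `K'` generated by the eighth roots of unity and by the action on `L / 4`,
where `L` is some stable lattice: the `l k` are trivial on the elements of `Kˣ` which become squares in
`K'` (`Indep`).  If `K` is a number field and `l k` is the parity of the valuation at a place which does
not divide two, this condition says nothing but that `u` has even valuation if `u` is a square in `K'`;
it holds if `Z` has good reduction at the place.

The conclusion: all Tate classes on the powers `V ^ n` with values in `W`, that is all Tate classes in
`H ^ a (J ^ n) ⊗ H ^ i (Z) (c)`, are linear combinations of the products of classes of divisors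
`ω (v i, w j) + ω (v j, w i)` of `J ^ n` and of Tate classes of `Z`; there are none if `a` is odd.  So
the Tate conjecture for `ℓ = 2` and all the varieties `J ^ n × Z`, in all degrees, is equivalent to the
Tate conjecture for `Z`.
-/

set_option autoImplicit false

namespace Pool.Agent.Results.MP_90d181_ag.AnyVarietyFactor

open TensorProduct Pool.Agent.H204R3.GP Pool.Agent.N171

/-- The hypothesis on the differences of the branch points modulo squares: the homomorphism `l k` is
`-1` at `α i - α j` if and only if `i` and `j` are in the set `I k`, of even cardinality.  The sets `I k`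
generate the sets of even cardinality and are connected by odd intersections. -/
structure SignData {K : Type*} [Field K] {ι κ : Type*} [DecidableEq ι]
    (α : ι → K) (I : κ → Finset ι) (l : κ → (Kˣ →* ℤˣ)) : Prop where
  even : ∀ k, Even (I k).card
  span : ∀ i j : ι, i ≠ j → ind {i, j} ∈ AddSubgroup.closure (Set.range fun k => ind (I k))
  conn : ∀ k k' : κ, Relation.ReflTransGen (fun k k' => Odd (I k ∩ I k').card) k k'
  sign : ∀ k (i j : ι) (u : Kˣ), (u : K) = α i - α j →
    l k u = if i ∈ I k ∧ j ∈ I k then -1 else 1

/-- The Tate classes on the powers `V ^ n` with values in `W` are zero in odd degrees, and in even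
degrees they are the linear combinations of the forms `g • w`, where `g` is a wedge product of forms
`ω (v i) (w j) + ω (v j) (w i)` and `w` is a Tate class of `W`. -/
def Splits {k V W Γ : Type*} [Field k] [AddCommGroup V] [Module k V] [AddCommGroup W] [Module k W]
    [Group Γ] (ρ : Representation k Γ V) (χ : Γ →* k) (ω : V →ₗ[k] V →ₗ[k] k)
    (τ : Representation k Γ W) : Prop :=
  (∀ (n a : ℕ) (f : (Fin n → V) [⋀^Fin a]→ₗ[k] W), Odd a → IsTateV ρ τ f → f = 0) ∧
  ∀ (n m : ℕ) (f : (Fin n → V) [⋀^Fin m × Fin 2]→ₗ[k] W),
    IsTateV ρ τ f ↔ f ∈ Submodule.span k {h | IsProdW χ τ (fun _ : Unit => ω) h}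

universe w

/-- **The Tate classes on the products of powers of a hyperelliptic Jacobian with any variety.** -/
theorem result {K F ι κ : Type*} [Field K] [Field F] [Algebra K F] [IsAlgClosure K F] [Fintype ι]
    [DecidableEq ι] (α : ι → K) [Hyp α] (I : κ → Finset ι) (l : κ → (Kˣ →* ℤˣ))
    (h : SignData α I l) :
    ∃ ω : Vt (Jac F α) →ₗ[ℚ_[2]] Vt (Jac F α) →ₗ[ℚ_[2]] ℚ_[2],
      IsWeil (vRep (Jac F α) (F ≃ₐ[K] F)) (cycQ K F) ω ∧
      ∀ (W : Type w) [AddCommGroup W] [Module ℚ_[2] W] (τ : Representation ℚ_[2] (F ≃ₐ[K] F) W),
        Indep τ l → Splits (vRep (Jac F α) (F ≃ₐ[K] F)) (cycQ K F) ω τ := by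
  have hF : IsAlgClosed F := IsAlgClosure.isAlgClosed K
  have h2 : (2 : F) ≠ 0 := Hyp.two (α := lf F α)
  have hfi : Module.Finite ℤ_[2] (TateMod 2 (Jac F α)) := instFinOne (F := F) (fun _ : Unit => α) ()
  have hfr : Module.Free ℤ_[2] (TateMod 2 (Jac F α)) := instFreeOne (F := F) (fun _ : Unit => α) ()
  have hw : IsWeil (ratRep (tateRep1 F α)) (ratChar (cyc K F)) (BV (B1 α h2)) :=
    ⟨BV_alt _ (BB_self _ _ _), BV_nd _ (Bq_nd (fun _ : Unit => α) h2 ()),
      BV_inv (tateRep1 F α) (cyc K F) _ (Bq_act (fun _ : Unit => α) h2 ())⟩
  refine ⟨BV (B1 α h2), hw, fun W _ _ τ hτ => ?_⟩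
  obtain ⟨h3, h4⟩ := mainW1 (F := F) α I h.even h2 l h.span h.conn h.sign hτ
  exact ⟨fun n a f ha hf => h4 n a f ha hf, fun n m f => ⟨fun hf => h3 n m f hf,
    fun hf => tateV_span (fun _ s u v => hw.equiv s u v) hf⟩⟩

end Pool.Agent.Results.MP_90d181_ag.AnyVarietyFactor
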