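import Pool.Agent.N90.CZ.BridgeF

/-!
# The Tate conjecture for abelian varieties of CM type over number fields: one subexponential power
# suffices

Let `(E i, Φ i)` be the CM types of `k` simple, pairwise not isogenous abelian varieties `A i` with
complex multiplication, and let `g` be the dimension of their product. If, for one prime `ℓ` and
over one number field, all Tate classes on a product of the `A i`, in which every `A i` occurs at least
`(2 g) ^ e` times, are generated by divisors, where `e ^ 2 ≥ k g (log₂ g + 5)` or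
`e ^ 3 ≥ 2 g ^ 2 (log₂ g + 5)`, then this holds for all products of powers of abelian varieties of
these CM types, for all `ℓ` and all number fields. So for a simple abelian variety `A` of CM type the
power `A ^ N`, `N = exp (C √g (log g) ^ (3 / 2))`, decides. (There are simple `A` for which there are
no exotic classes on `A ^ r` for all `r < 3 · 2 ^ (√g - 6) / √g`, but exotic classes on higher
powers: MP_0fca13_ag, LateExoticPowersOverNumberFields.)
-/

set_option autoImplicit false

namespace Pool.Agent.Results.MP_90d181_ag.OneSubexponentialPower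

open NumberField Module Pool.Agent.H204R3.CM Pool.Agent.N90.CZS Pool.Agent.N90.CZF
open scoped TensorProduct

/-- **One subexponential power suffices.** -/
theorem result {ι : Type} [Fintype ι] [Nonempty ι] {E : ι → Type} [∀ i, Field (E i)]
    [∀ i, NumberField (E i)] [∀ i, IsCMField (E i)] {Φ : ∀ i, Set (E i →+* ℂ)}
    (hΦ : ∀ i, IsCMType (Φ i)) (hsep : IsSeparated Φ) {g e N : ℕ}
    (hg : ∑ i, finrank ℚ (E i) = 2 * g) (he : Fintype.card ι * g * (Nat.log 2 g + 5) ≤ e ^ 2 ∨
      2 * g ^ 2 * (Nat.log 2 g + 5) ≤ e ^ 3) (hN : (2 * g) ^ e ≤ N)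
    -- one Galois representation and one product
    {ℓ : ℕ} [Fact ℓ.Prime] {Γ : Type} [Group Γ] [TopologicalSpace Γ] [IsTopologicalGroup Γ]
    {ρ : Γ →* ℚ_[ℓ] ⊗[ℚ] (∀ i, E i)} {χ : Γ →* ℚ_[ℓ]}
    (h : Pool.Agent.N90.CZF.IsCMRepresentation ℓ E Φ ρ χ) {J : Type} [Fintype J] (t : J → ι)
    (ht : ∀ i, ∃ f : Fin N → J, Function.Injective f ∧ ∀ k, t (f k) = i)
    (hgen : ∀ d : ℕ, TateGeneratedIn (Pool.Agent.N90.CZF.galois t ρ) χ d)
    -- all Galois representations and all products
    {ℓ' : ℕ} [Fact ℓ'.Prime] {Γ' : Type} [Group Γ'] [TopologicalSpace Γ'] [IsTopologicalGroup Γ']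
    {ρ' : Γ' →* ℚ_[ℓ'] ⊗[ℚ] (∀ i, E i)} {χ' : Γ' →* ℚ_[ℓ']}
    (h' : Pool.Agent.N90.CZF.IsCMRepresentation ℓ' E Φ ρ' χ') {J' : Type} [Fintype J']
    (t' : J' → ι) (d : ℕ) :
    TateGeneratedIn (Pool.Agent.N90.CZF.galois t' ρ') χ' d :=
  Pool.Agent.N90.CZ.upperF hΦ hsep hg he hN h t ht hgen h' t' d

end Pool.Agent.Results.MP_90d181_ag.OneSubexponentialPower
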