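import Mathlib
import Pool.Agent.N995.Tt7

/-!
# The Tate conjecture for all powers of the abelian varieties of dimension at most five

Let `X` be an abelian variety of any dimension over a number field `F ⊆ ℂ`. We assume that there is a
complex abelian variety `A` of dimension at most five such that each simple factor of `X` over `ℂ`
(that is, each simple abelian variety with a homomorphism to `X` with finite kernel) is a factor of
`A`. For instance `X` can be any form of any power of `A`, or of any product of powers of the factors
of `A`. There is one condition: no simple factor `Y` of `A` of dimension four has `End(Y) = ℤ`. No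
condition is imposed on the endomorphisms, on the Mumford–Tate group, on the complex multiplication
or on the reductions of `X`.

Then all `ℓ`-adic Tate classes on `X`, in all degrees and for all primes `ℓ`, are `ℚ_ℓ`-linear
combinations of classes of the system `Alg`, the smallest system of cohomology classes on complex
abelian varieties that contains the classes of degree zero, the Hodge classes of degree two, and the
Weil classes of imaginary quadratic fields on abelian fourfolds and on abelian sixfolds with trivial
discriminant, and that is stable under linear combinations, cup products, pull-backs along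
homomorphisms, and push-forwards along the projections of products of abelian varieties. All classes
in `Alg` are algebraic, by the theorem of Lefschetz and by the theorems of Markman on Weil classes, so
the Tate conjecture holds for `X` over `F` and over all finite extensions of `F`.

The proof. The Lie algebra `𝔤` generated by the Hodge–Tate elements over `ℂ_ℓ` kills the Tate
classes; it is generated by involutions and has the commutant of the Lie algebra `𝔥` of the Hodge
group, with the same traces. If the factors of `X` are of dimension at most three, of type I or II,
or of type IV with an imaginary quadratic field, then the components of `𝔤` contain elements of rank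
one and the methods of the library apply (now also for the multiplicities four and one in dimension
five). In the other cases `X` is built from a fourfold `Y` of type III or with a CM field of degree
four as its endomorphism algebra, and possibly an elliptic curve `C`. There the involutions of `𝔤`
act on tensor products of planes; the involutions attached to an automorphism `σ` in `𝔤` and in `𝔥`
differ by families of traceless matrices on the planes, and all such families belong to `𝔤`, by an
argument of Goursat type for families of two by two matrices without common eigenvectors. So `𝔥 ⊆ 𝔤`,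
and the Tate classes are combinations of Hodge classes. These are treated in
`MP_e12fcd_ag.PowersUpToDimensionFive`.
-/

namespace Pool.Agent.Results.MP_90d181_ag.PowersUpToDimensionFive

open Module Pool.Agent.Y90 Pool.Agent.R915 Pool.Agent.Y224.TS.St TensorProduct

/-- **Tate classes** on an abelian variety `X` over a number field, given (as a complex abelian
variety) by `X : AV`, a polarization `E` and the representation `ρ` of the Galois group `Γ` on the
Tate module `ℚ_ℓ ⊗ H_1(X, ℚ)`, with the known properties of the Tate module (`IsTateModule`; `χ` is
the cyclotomic character, and `ℂ` is identified with an algebraic closure of `ℚ_ℓ`). If all simple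
factors of `X` over `ℂ` are factors of a complex abelian variety `A` of dimension at most five
without fourfold factors with only the trivial endomorphisms, then each Tate class `φ` of degree `2 m`
(an alternating form on the Tate module on which a subgroup of finite index acts through `χ ^ m`) is a
`ℚ_ℓ`-linear combination of classes of the system `Alg`. -/
theorem result (A : AV) (hdim : finrank ℚ A.H ≤ 10)
    (hA : ∀ Y, IsFactor Y A → finrank ℚ Y.H = 8 → ∃ f, IsHom Y Y f ∧ ∀ c : ℚ, f ≠ c • 1)
    (X : AV) (hX : ∀ Y, IsFactor Y X → IsFactor Y A)
    (E : X.H → X.H → ℚ) (hE : Pool.Agent.Y90.St.IsPolarization X.per E)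
    (ℓ : ℕ) [Fact ℓ.Prime] [Algebra ℚ_[ℓ] ℂ] [Algebra.IsAlgebraic ℚ_[ℓ] ℂ]
    {Γ : Type} [Group Γ] (ρ : Representation ℚ_[ℓ] Γ (ℚ_[ℓ] ⊗[ℚ] X.H)) (χ : Γ →* ℚ_[ℓ])
    (hρ : IsTateModule X.per E ρ χ) {κ : Type} [Finite κ] {m : ℕ} (hκ : Nat.card κ = 2 * m)
    (φ : (ℚ_[ℓ] ⊗[ℚ] X.H) [⋀^κ]→ₗ[ℚ_[ℓ]] ℚ_[ℓ])
    (hφ : ∃ Δ : Subgroup Γ, Δ.FiniteIndex ∧ ∀ g ∈ Δ, ∀ v : κ → ℚ_[ℓ] ⊗[ℚ] X.H,
      φ (fun k => ρ g (v k)) = χ g ^ m * φ v) :
    ∃ (n : ℕ) (c : Fin n → ℚ_[ℓ]) (f : Fin n → (X.H [⋀^κ]→ₗ[ℚ] ℚ)),
      (∀ j, Alg X κ (f j)) ∧
        ∀ v : κ → X.H, φ (fun k => 1 ⊗ₜ v k) = ∑ j, c j * ((f j v : ℚ) : ℚ_[ℓ]) :=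
  Pool.Agent.N995.tate_alg5 algSys A hdim hA X hX hE hρ hκ φ hφ

end Pool.Agent.Results.MP_90d181_ag.PowersUpToDimensionFive
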